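import Pool.Agent.Helper95.Lin.GoalsF
import Pool.Agent.Helper95.Lin.Basics

/-!
# Sizes of words in commutators
-/

open Complex Metric Set Filter Topology MeasureTheory
open scoped ContDiff ComplexConjugate ComplexOrder

namespace Pool.Agent.Helper92.Lin

open Pool.Agent.Helper95.Lin

section cauchy

variable {n : ℕ} {F : Type*} [NormedAddCommGroup F] [NormedSpace ℂ F]

/-- Cauchy estimate on a smaller ball. -/
lemma fderiv_bd {f : Cn n → F} {z : Cn n} {r ρ s : ℝ} (hρ : 0 < ρ)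
    (hf : DifferentiableOn ℂ f (ball z r)) (hs : ∀ u ∈ ball z r, ‖f u‖ ≤ s) {w : Cn n}
    (hw : w ∈ ball z (r - ρ)) : ‖fderiv ℂ f w‖ ≤ 2 * s / ρ := by
  have hsub : ball w (2 * (ρ / 2)) ⊆ ball z r := by
    intro u hu
    rw [mem_ball] at *
    calc dist u z ≤ dist u w + dist w z := dist_triangle _ _ _
      _ < r := by linarith
  have := Pool.Agent.Helper8.Abund.norm_fderiv_le_of_bound (half_pos hρ) (hf.mono hsub)
    (fun u hu => hs u (hsub hu))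
  calc _ ≤ s / (ρ / 2) := this
    _ = 2 * s / ρ := by field_simp

/-- Lipschitz estimate on a smaller ball. -/
lemma lip_bd {f : Cn n → F} {z : Cn n} {r ρ s : ℝ} (hρ : 0 < ρ)
    (hf : DifferentiableOn ℂ f (ball z r)) (hs : ∀ u ∈ ball z r, ‖f u‖ ≤ s) {x y : Cn n}
    (hx : x ∈ ball z (r - ρ)) (hy : y ∈ ball z (r - ρ)) :
    ‖f x - f y‖ ≤ 2 * s / ρ * ‖x - y‖ := by
  have hsub : ball z (r - ρ) ⊆ ball z r := ball_subset_ball (by linarith)
  refine (convex_ball z (r - ρ)).norm_image_sub_le_of_norm_fderiv_le (𝕜 := ℂ) ?_ ?_ hy hx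
  · intro w hw
    exact (hf w (hsub hw)).differentiableAt (isOpen_ball.mem_nhds (hsub hw))
  · intro w hw
    exact fderiv_bd hρ hf hs hw

end cauchy

variable {n : ℕ} {M : Set (Cn n)} {Γ : Type} [Group Γ] {T : Γ → Cn n → Cn n}

lemma ball_move {x y z : Cn n} {r s : ℝ} (hx : x ∈ ball z r) (h : ‖y - x‖ ≤ s) :
    y ∈ ball z (r + s) := by
  rw [mem_ball] at *
  rw [← dist_eq_norm] at h
  calc dist y z ≤ dist y x + dist x z := dist_triangle _ _ _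
    _ < r + s := by linarith

lemma ball_move' {x y z : Cn n} {r r' s : ℝ} (hx : x ∈ ball z r) (h : ‖y - x‖ ≤ s)
    (hr : r + s ≤ r') : y ∈ ball z r' := ball_subset_ball hr (ball_move hx h)

/-- The data of a commutator at a point. -/
lemma comm_pt (hT : GAct M T) {z₀ : Cn n} {r ρ d : ℝ} (hρ : 0 < ρ) (hM : ball z₀ r ⊆ M)
    (hd : 0 ≤ d) (hdρ : 32 * d ≤ ρ) {γ γ' : Γ} (h : Sz T z₀ r d γ) (h' : Sz T z₀ r d γ')
    {x : Cn n} (hx : x ∈ ball z₀ (r - ρ / 4)) :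
    T (γ⁻¹ * γ'⁻¹) x ∈ ball z₀ (r - ρ / 8) ∧ ‖T (γ⁻¹ * γ'⁻¹) x - x‖ ≤ 2 * d ∧
    T γ' (T (γ⁻¹ * γ'⁻¹) x) ∈ ball z₀ (r - ρ / 8) ∧ T γ (T (γ⁻¹ * γ'⁻¹) x) ∈ ball z₀ (r - ρ / 8) ∧
    T γ' (T γ (T (γ⁻¹ * γ'⁻¹) x)) = x ∧
    T (γ * γ' * γ⁻¹ * γ'⁻¹) x = T γ (T γ' (T (γ⁻¹ * γ'⁻¹) x)) := by
  have hxr : x ∈ ball z₀ r := ball_subset_ball (by linarith) hx
  have hxM : x ∈ M := hM hxr
  have e1 : T (γ⁻¹ * γ'⁻¹) x = T γ⁻¹ (T γ'⁻¹ x) := hT.mul _ _ x hxM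
  have h1 : ‖T γ'⁻¹ x - x‖ ≤ d := (h' x hxr).2
  have hy1 : T γ'⁻¹ x ∈ ball z₀ r := ball_move' hx h1 (by linarith)
  have h2 : ‖T γ⁻¹ (T γ'⁻¹ x) - T γ'⁻¹ x‖ ≤ d := (h _ hy1).2
  have h3 : ‖T (γ⁻¹ * γ'⁻¹) x - x‖ ≤ 2 * d := by
    rw [e1]
    calc _ ≤ ‖T γ⁻¹ (T γ'⁻¹ x) - T γ'⁻¹ x‖ + ‖T γ'⁻¹ x - x‖ :=
          norm_sub_le_norm_sub_add_norm_sub _ _ _
      _ ≤ 2 * d := by linarith
  have hy : T (γ⁻¹ * γ'⁻¹) x ∈ ball z₀ (r - ρ / 8 - d) := ball_move' hx h3 (by linarith)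
  have hyr : T (γ⁻¹ * γ'⁻¹) x ∈ ball z₀ r := ball_subset_ball (by linarith) hy
  have hyM := hM hyr
  refine ⟨ball_subset_ball (by linarith) hy, h3, ball_move' hy (h' _ hyr).1 (by linarith),
    ball_move' hy (h _ hyr).1 (by linarith), ?_, ?_⟩
  · rw [← hT.mul _ _ _ hyM, ← hT.mul _ _ _ hxM]
    have : γ' * γ * (γ⁻¹ * γ'⁻¹) = 1 := by group
    rw [this, hT.one x hxM]
  · rw [← hT.mul _ _ _ hyM, ← hT.mul _ _ _ hxM]
    congr 1
    group

/-- Displacement of a commutator. -/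
lemma comm_disp (hT : GAct M T) {z₀ : Cn n} {r ρ d : ℝ} (hρ : 0 < ρ) (hM : ball z₀ r ⊆ M)
    (hd : 0 ≤ d) (hdρ : 32 * d ≤ ρ) {γ γ' : Γ} (h : Sz T z₀ r d γ) (h' : Sz T z₀ r d γ')
    {x : Cn n} (hx : x ∈ ball z₀ (r - ρ / 4)) :
    ‖T (γ * γ' * γ⁻¹ * γ'⁻¹) x - x‖ ≤ 32 * d ^ 2 / ρ := by
  obtain ⟨hy, -, hy', hy'', e1, e2⟩ := comm_pt hT hρ hM hd hdρ h h' hx
  set y := T (γ⁻¹ * γ'⁻¹) x with hydef
  have hsub : ball z₀ (r - ρ / 8) ⊆ ball z₀ r := ball_subset_ball (by linarith)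
  have hf : ∀ γ : Γ, DifferentiableOn ℂ (fun u => T γ u - u) (ball z₀ r) := fun γ =>
    ((hT.holo γ).mono hM).sub differentiableOn_id
  have l1 := lip_bd (by positivity : 0 < ρ / 8) (hf γ) (fun u hu => (h u hu).1) hy' hy
  have l2 := lip_bd (by positivity : 0 < ρ / 8) (hf γ') (fun u hu => (h' u hu).1) hy'' hy
  have d1 : ‖T γ' y - y‖ ≤ d := (h' y (hsub hy)).1
  have d2 : ‖T γ y - y‖ ≤ d := (h y (hsub hy)).1
  have e3 : T (γ * γ' * γ⁻¹ * γ'⁻¹) x - x = ((T γ (T γ' y) - T γ' y) - (T γ y - y)) -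
      ((T γ' (T γ y) - T γ y) - (T γ' y - y)) := by
    rw [e2, e1]; abel
  rw [e3]
  have hc : 0 ≤ 2 * d / (ρ / 8) := by positivity
  calc _ ≤ ‖(T γ (T γ' y) - T γ' y) - (T γ y - y)‖ +
        ‖(T γ' (T γ y) - T γ y) - (T γ' y - y)‖ := norm_sub_le _ _
    _ ≤ 2 * d / (ρ / 8) * d + 2 * d / (ρ / 8) * d := by
        refine add_le_add (l1.trans (mul_le_mul_of_nonneg_left d1 hc))
          (l2.trans (mul_le_mul_of_nonneg_left d2 hc))
    _ = 32 * d ^ 2 / ρ := by field_simp; ring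

/-- Displacement of a product. -/
lemma prod_disp (hT : GAct M T) {z₀ : Cn n} {R e : ℝ} (hM : ball z₀ R ⊆ M) (he : 0 ≤ e) :
    ∀ L : List Γ, (∀ c ∈ L, ∀ x ∈ ball z₀ R, ‖T c x - x‖ ≤ e) →
      ∀ x ∈ ball z₀ (R - L.length * e), ‖T L.prod x - x‖ ≤ L.length * e := by
  intro L
  induction L with
  | nil =>
    intro _ x hx
    have hx' : x ∈ M := hM (ball_subset_ball (by simp) hx)
    simp [hT.one x hx']
  | cons c L ih =>
    intro h x hx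
    have hL : 0 ≤ (L.length : ℝ) * e := by positivity
    have hlen : (((c :: L).length : ℕ) : ℝ) * e = L.length * e + e := by
      simp; ring
    rw [hlen] at hx ⊢
    have hx' : x ∈ M := hM (ball_subset_ball (by linarith) hx)
    have h1 := ih (fun c hc => h c (List.mem_cons_of_mem _ hc)) x
      (ball_subset_ball (by linarith) hx)
    have h2 : T L.prod x ∈ ball z₀ R := ball_move' hx h1 (by linarith)
    have h3 := h c (List.mem_cons_self ..) _ h2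
    rw [List.prod_cons, hT.mul _ _ x hx']
    calc _ ≤ ‖T c (T L.prod x) - T L.prod x‖ + ‖T L.prod x - x‖ :=
          norm_sub_le_norm_sub_add_norm_sub _ _ _
      _ ≤ _ := by linarith

/-- The list of commutators of a word, and its inverse. -/
lemma words_list {p N : ℕ} {γ : Fin p → Γ} {δ : Γ} (hδ : δ ∈ Words N γ) :
    ∃ L : List Γ, L.length ≤ N ∧ δ = L.prod ∧
      ∀ c ∈ L, ∃ i j, c = γ i * γ j * (γ i)⁻¹ * (γ j)⁻¹ := by
  obtain ⟨l, hl, rfl⟩ := hδ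
  refine ⟨_, by simpa using hl, rfl, ?_⟩
  intro c hc
  obtain ⟨q, _, rfl⟩ := List.mem_map.mp hc
  exact ⟨q.1, q.2, rfl⟩

lemma words_inv {p N : ℕ} {γ : Fin p → Γ} {δ : Γ} (hδ : δ ∈ Words N γ) : δ⁻¹ ∈ Words N γ := by
  obtain ⟨l, hl, rfl⟩ := hδ
  refine ⟨(l.map Prod.swap).reverse, by simpa using hl, ?_⟩
  rw [List.prod_inv_reverse, List.map_map, List.map_reverse, List.map_map]
  congr 2
  apply List.map_congr_left
  intro q _
  simp only [Function.comp, Prod.swap]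
  group

theorem stepsz : S_STEPSZ := by
  intro N
  refine ⟨32 * (N + 1), by nlinarith [Nat.cast_nonneg (α := ℝ) N], ?_⟩
  intro n M Γ _ T hT z₀ r ρ d hρ hρr hM hd hCd p γ hγ δ hδ
  have hN : (0 : ℝ) ≤ N := Nat.cast_nonneg N
  have hd32 : 32 * d ≤ ρ := by nlinarith
  set e : ℝ := 32 * d ^ 2 / ρ with hedef
  have he : 0 ≤ e := by positivity
  have hNe : N * e ≤ ρ / 2 := by
    rw [hedef, mul_div_assoc', div_le_iff₀ hρ]
    have h1 : 32 * (N + 1) * d * (32 * d) ≤ ρ * ρ := mul_le_mul hCd hd32 (by positivity) hρ.le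
    nlinarith [mul_nonneg hN (sq_nonneg d), sq_nonneg d]
  have key : ∀ δ ∈ Words N γ, ∀ x ∈ ball z₀ (r - ρ), ‖T δ x - x‖ ≤
      32 * (N + 1) / ρ * d ^ 2 := by
    intro δ hδ x hx
    obtain ⟨L, hL, rfl, hc⟩ := words_list hδ
    have hLN : (L.length : ℝ) ≤ N := by exact_mod_cast hL
    have hLe : L.length * e ≤ N * e := mul_le_mul_of_nonneg_right hLN he
    have := prod_disp hT (z₀ := z₀) (R := r - ρ / 4) (e := e)
      ((ball_subset_ball (by linarith)).trans hM) he L (by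
        intro c hcL x hx
        obtain ⟨i, j, rfl⟩ := hc c hcL
        exact comm_disp hT hρ hM hd hd32 (hγ i) (hγ j) hx) x
        (ball_subset_ball (by linarith) hx)
    calc _ ≤ L.length * e := this
      _ ≤ N * e := hLe
      _ ≤ 32 * (N + 1) / ρ * d ^ 2 := by
        rw [hedef]
        have : 32 * (N + 1) / ρ * d ^ 2 = (N + 1) * (32 * d ^ 2 / ρ) := by ring
        rw [this]
        have h0 : 0 ≤ 32 * d ^ 2 / ρ := by positivity
        nlinarith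
  intro x hx
  exact ⟨key δ hδ x hx, key _ (words_inv hδ) x hx⟩

end Pool.Agent.Helper92.Lin
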